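import Pool.Agent.H90.STE.Stmts
import Pool.Agent.H32.Dense.Marg

/-!
# Cubes of times on the lines (row CU)

The family with the shape `h` of the cube in the side information is built by induction: the
sample space is replaced by its square, with the two samples conditionally independent given the
line and the side information.
-/

set_option autoImplicit false

namespace Pool.STE.CU28

open Finset Real
open Pool.Agent.H49.Ent Pool.Agent.H32.Dense Pool.STK Pool.KA

/-! ### Entropy of an integer variable -/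

lemma sum_inv_nat (J : ℕ) :
    ∑ k ∈ Finset.range (2 ^ J), (max 1 (k : ℝ))⁻¹ ≤ 2 + J * Real.log 2 := by
  have h0 : 0 < 2 ^ J := by positivity
  obtain ⟨M, hM⟩ : ∃ M, 2 ^ J = M + 1 := ⟨2 ^ J - 1, by omega⟩
  rw [hM, Finset.sum_range_succ']
  have h1 : ∑ k ∈ Finset.range M, (max 1 ((k + 1 : ℕ) : ℝ))⁻¹ = (harmonic M : ℝ) := by
    unfold harmonic
    push_cast
    refine Finset.sum_congr rfl fun k _ => ?_
    rw [max_eq_right]
    have : (0 : ℝ) ≤ k := Nat.cast_nonneg k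
    linarith
  rw [h1]
  have h2 := harmonic_le_one_add_log M
  have h3 : Real.log M ≤ J * Real.log 2 := by
    rw [← Real.log_pow]
    rcases Nat.eq_zero_or_pos M with h | h
    · subst h
      simp only [Nat.cast_zero, Real.log_zero]
      exact Real.log_nonneg (one_le_pow₀ (by norm_num))
    · refine Real.log_le_log (by exact_mod_cast h) ?_
      have : (M : ℝ) + 1 = 2 ^ J := by exact_mod_cast hM.symm
      linarith
  simp only [Nat.cast_zero, zero_le_one, max_eq_left, inv_one]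
  linarith

/-- The weight of an integer. -/
noncomputable def wt (J : ℕ) (x : ℤ) : ℝ :=
  if |x| < 2 ^ J then (Real.exp 1 * (J + 2) * max 1 |(x : ℝ)|)⁻¹ else 0

lemma sum_wt_aux (J : ℕ) (F : Finset ℤ) (hF : Set.InjOn Int.natAbs (F : Set ℤ)) :
    ∑ x ∈ F, (if |x| < 2 ^ J then (max 1 |(x : ℝ)|)⁻¹ else 0) ≤ 2 + J * Real.log 2 := by
  classical
  rw [← Finset.sum_filter]
  have h1 : ∑ x ∈ F.filter (fun x => |x| < 2 ^ J), (max 1 |(x : ℝ)|)⁻¹ =
      ∑ k ∈ (F.filter (fun x => |x| < 2 ^ J)).image Int.natAbs, (max 1 (k : ℝ))⁻¹ := by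
    rw [Finset.sum_image]
    · refine Finset.sum_congr rfl fun x _ => ?_
      rw [Nat.cast_natAbs]
      push_cast
      rfl
    · intro x hx y hy e
      exact hF (Finset.mem_coe.mpr (Finset.mem_of_mem_filter x hx))
        (Finset.mem_coe.mpr (Finset.mem_of_mem_filter y hy)) e
  rw [h1]
  refine le_trans (Finset.sum_le_sum_of_subset_of_nonneg ?_ ?_) (sum_inv_nat J)
  · intro k hk
    obtain ⟨x, hx, rfl⟩ := Finset.mem_image.mp hk
    have h2 := (Finset.mem_filter.mp hx).2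
    rw [Finset.mem_range]
    have h3 : ((x.natAbs : ℕ) : ℤ) < 2 ^ J := by
      rw [Int.natCast_natAbs]
      exact h2
    exact_mod_cast h3
  · intro k _ _
    positivity

lemma sum_wt (J : ℕ) (F : Finset ℤ) : ∑ x ∈ F, wt J x ≤ 1 := by
  classical
  have h1 : ∑ x ∈ F, wt J x = (Real.exp 1 * (J + 2))⁻¹ *
      ∑ x ∈ F, (if |x| < 2 ^ J then (max 1 |(x : ℝ)|)⁻¹ else 0) := by
    rw [Finset.mul_sum]
    refine Finset.sum_congr rfl fun x _ => ?_
    unfold wt
    split_ifs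
    · rw [mul_inv]
    · simp
  have h2 : ∑ x ∈ F, (if |x| < 2 ^ J then (max 1 |(x : ℝ)|)⁻¹ else 0) ≤
      2 * (2 + J * Real.log 2) := by
    rw [← Finset.sum_filter_add_sum_filter_not F (fun x => 0 ≤ x)]
    have a := sum_wt_aux J (F.filter (fun x => 0 ≤ x)) (by
      intro x hx y hy e
      have hx' := (Finset.mem_filter.mp (Finset.mem_coe.mp hx)).2
      have hy' := (Finset.mem_filter.mp (Finset.mem_coe.mp hy)).2
      omega)
    have b := sum_wt_aux J (F.filter (fun x => ¬ 0 ≤ x)) (by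
      intro x hx y hy e
      have hx' := (Finset.mem_filter.mp (Finset.mem_coe.mp hx)).2
      have hy' := (Finset.mem_filter.mp (Finset.mem_coe.mp hy)).2
      omega)
    linarith
  have h3 : 2 * (2 + J * Real.log 2) ≤ Real.exp 1 * (J + 2) := by
    have e1 := Real.exp_one_gt_d9
    have e2 := Real.log_two_lt_d9
    have e3 : (0 : ℝ) ≤ J := Nat.cast_nonneg J
    nlinarith
  have h4 : 0 < Real.exp 1 * ((J : ℝ) + 2) := by positivity
  rw [h1]
  calc (Real.exp 1 * ((J : ℝ) + 2))⁻¹ *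
      ∑ x ∈ F, (if |x| < 2 ^ J then (max 1 |(x : ℝ)|)⁻¹ else 0) ≤
      (Real.exp 1 * ((J : ℝ) + 2))⁻¹ * (Real.exp 1 * (J + 2)) :=
        mul_le_mul_of_nonneg_left (h2.trans h3) (by positivity)
    _ = 1 := inv_mul_cancel₀ h4.ne'

lemma CH_unit {Ω S : Type*} [Fintype Ω] {q : Ω → ℝ} (h1 : ∑ w, q w = 1) (hq : ∀ w, 0 ≤ q w)
    (X : Ω → S) : CH q X (fun _ => ()) = H q X := by
  unfold CH
  rw [H_const h1, sub_zero]
  exact H_congr hq (fun _ _ _ _ h => Prod.ext h rfl) (fun _ _ _ _ h => (Prod.ext_iff.mp h).1)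

/-- The entropy of an integer variable is at most the mean logarithm, up to `log J`. -/
lemma H_int_le {Ω : Type*} [Fintype Ω] {q : Ω → ℝ} (hq : ∀ w, 0 ≤ q w) (h1 : ∑ w, q w = 1)
    (D : Ω → ℤ) (J : ℕ) (hD : ∀ w, |D w| < 2 ^ J) :
    H q D ≤ Ex q (fun w => Real.log (max 1 |(D w : ℝ)|)) + Real.log (J + 2) + 1 := by
  have h := CH_le_cross hq h1 D (fun _ => ()) (fun _ x => wt J x)
    (by
      intro w _
      simp only [wt, if_pos (hD w)]
      positivity)
    (by
      intro _ x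
      simp only [wt]
      split_ifs <;> positivity)
    (by
      intro w _ F
      exact sum_wt J F)
  rw [CH_unit h1 hq] at h
  refine h.trans ?_
  have e : ∀ w, -Real.log (wt J (D w)) =
      Real.log (max 1 |(D w : ℝ)|) + (Real.log (J + 2) + 1) := by
    intro w
    unfold wt
    rw [if_pos (hD w), Real.log_inv, neg_neg, Real.log_mul (by positivity) (by positivity),
      Real.log_mul (by positivity) (by positivity), Real.log_exp]
    ring
  simp_rw [e]
  rw [Ex_add, Ex_const h1]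
  linarith

/-! ### The square of a family -/

variable {m J n : ℕ}

/-- Line and side information. -/
def bC (F : Fam m J) (ω : F.Ω) : ((Fin m → ℝ) × (Fin m → ℝ)) × F.ζ := (F.l ω, F.Z ω)

lemma q_nonneg (F : Fam m J) (w : F.Ω × F.Ω) : 0 ≤ dbl F.p (bC F) w :=
  glue_nonneg F.isLaw.nonneg F.isLaw.nonneg w

lemma q_sum (F : Fam m J) : ∑ w, dbl F.p (bC F) w = 1 := by
  unfold dbl
  rw [sum_glue F.isLaw.nonneg (fun _ => rfl), F.isLaw.sum_one]

lemma q_law (F : Fam m J) : IsLaw (dbl F.p (bC F)) := ⟨q_nonneg F, q_sum F⟩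

lemma q_pos (F : Fam m J) {w : F.Ω × F.Ω} (h : 0 < dbl F.p (bC F) w) :
    0 < F.p w.1 ∧ 0 < F.p w.2 ∧ bC F w.1 = bC F w.2 :=
  (glue_pos_iff F.isLaw.nonneg F.isLaw.nonneg w).mp h

lemma q_fst (F : Fam m J) : Marg (dbl F.p (bC F)) F.p (fun w => w.1) :=
  marg_fst F.isLaw.nonneg (fun _ => rfl)

lemma q_snd (F : Fam m J) : Marg (dbl F.p (bC F)) F.p (fun w => w.2) :=
  marg_snd F.isLaw.nonneg (fun _ => rfl)

/-- The next cube. -/
noncomputable def nx (C : Cub m J n) : Cub m J (n + 1) where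
  F :=
    { Ω := C.F.Ω × C.F.Ω
      ζ := ℤ × C.F.ζ
      fin := inferInstance
      p := dbl C.F.p (bC C.F)
      u := fun w => C.F.u w.1
      d := fun w => C.F.d w.1
      T := fun w => C.S ∅ w.1
      Z := fun w => ((C.S ∅ w.2 : ℤ) - C.S ∅ w.1, C.F.Z w.1)
      isLaw := q_law C.F
      dir := fun w i => C.F.dir w.1 i
      tim := fun w => C.tim ∅ w.1 }
  h := fun w i => if i = n then (C.S ∅ w.2 : ℤ) - C.S ∅ w.1 else C.h w.1 i
  S := fun v w => if n ∈ v then C.S (v.erase n) w.2 else C.S v w.1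
  tim := by
    intro v w
    split_ifs
    · exact C.tim _ _
    · exact C.tim _ _
  cub := by
    intro v hv w hw
    obtain ⟨hp1, hp2, hb⟩ := q_pos C.F hw
    have hZ : C.F.Z w.1 = C.F.Z w.2 := (Prod.ext_iff.mp hb).2
    have hh : ∀ i < n, C.h w.1 i = C.h w.2 i := C.hz _ _ hZ
    rw [if_neg (Finset.notMem_empty n)]
    by_cases hn : n ∈ v
    · rw [if_pos hn]
      have hsub : v.erase n ⊆ Finset.range n := by
        intro i hi
        have h1 := Finset.mem_range.mp (hv (Finset.mem_of_mem_erase hi))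
        have h2 := Finset.ne_of_mem_erase hi
        exact Finset.mem_range.mpr (by omega)
      rw [C.cub _ hsub _ hp2, ← Finset.add_sum_erase v _ hn, if_pos rfl]
      have e : ∑ i ∈ v.erase n, (if i = n then (C.S ∅ w.2 : ℤ) - C.S ∅ w.1 else C.h w.1 i) =
          ∑ i ∈ v.erase n, C.h w.2 i := by
        refine Finset.sum_congr rfl fun i hi => ?_
        rw [if_neg (Finset.ne_of_mem_erase hi), hh i (Finset.mem_range.mp (hsub hi))]
      rw [e]
      ring
    · rw [if_neg hn]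
      have hsub : v ⊆ Finset.range n := by
        intro i hi
        have h1 := Finset.mem_range.mp (hv hi)
        have h2 : i ≠ n := fun h => hn (h ▸ hi)
        exact Finset.mem_range.mpr (by omega)
      rw [C.cub _ hsub _ hp1]
      congr 1
      refine Finset.sum_congr rfl fun i hi => ?_
      have h2 : i ≠ n := fun h => hn (h ▸ hi)
      rw [if_neg h2]
  hz := by
    intro w w' e i hi
    have e1 := (Prod.ext_iff.mp e).1
    have e2 := (Prod.ext_iff.mp e).2
    dsimp only at e1 e2 ⊢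
    by_cases h : i = n
    · rw [if_pos h, if_pos h]
      exact e1
    · rw [if_neg h, if_neg h]
      exact C.hz _ _ e2 i (by omega)

/-- The new edge. -/
noncomputable def ed (C : Cub m J n) (w : C.F.Ω × C.F.Ω) : ℤ := (C.S ∅ w.2 : ℤ) - C.S ∅ w.1

lemma ed_lt (C : Cub m J n) (w : C.F.Ω × C.F.Ω) : |ed C w| < 2 ^ J := by
  have h1 : (C.S ∅ w.1 : ℤ) < 2 ^ J := by exact_mod_cast C.tim ∅ w.1
  have h2 : (C.S ∅ w.2 : ℤ) < 2 ^ J := by exact_mod_cast C.tim ∅ w.2
  have h3 : (0 : ℤ) ≤ C.S ∅ w.1 := by positivity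
  have h4 : (0 : ℤ) ≤ C.S ∅ w.2 := by positivity
  unfold ed
  rw [abs_lt]
  constructor <;> linarith

/-- The entropy of the new edge is at most `(J + 1) log 2`. -/
lemma ed_le (C : Cub m J n) {T : Type*} (W : C.F.Ω × C.F.Ω → T) :
    CH (dbl C.F.p (bC C.F)) (ed C) W ≤ (J + 1) * Real.log 2 := by
  have h := CH_le_card (q_nonneg C.F) (q_sum C.F) (ed C) W
    (fun _ => Finset.Ioo (-(2 ^ J : ℤ)) (2 ^ J)) (fun w _ => by
      rw [Finset.mem_Ioo]
      exact abs_lt.mp (ed_lt C w))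
  refine h.trans ?_
  rw [Ex_const (q_sum C.F)]
  have h2 : ((J : ℝ) + 1) * Real.log 2 = Real.log (2 ^ (J + 1)) := by
    rw [Real.log_pow]
    push_cast
    ring
  rw [h2]
  have h0 : (0 : ℤ) < 2 ^ J := by positivity
  have h3 : (Finset.Ioo (-(2 ^ J : ℤ)) (2 ^ J)).card = (2 * 2 ^ J - 1 : ℤ).toNat := by
    rw [Int.card_Ioo]
    congr 1
    ring
  have h4 : ((Finset.Ioo (-(2 ^ J : ℤ)) (2 ^ J)).card : ℤ) = 2 * 2 ^ J - 1 := by
    rw [h3]
    exact Int.toNat_of_nonneg (by linarith)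
  have h5 : ((Finset.Ioo (-(2 ^ J : ℤ)) (2 ^ J)).card : ℝ) = 2 * 2 ^ J - 1 := by
    exact_mod_cast h4
  have h6 : (1 : ℝ) ≤ 2 ^ J := one_le_pow₀ (by norm_num)
  refine Real.log_le_log ?_ ?_
  · rw [h5]
    linarith
  · rw [h5, pow_succ]
    linarith

/-- Given the line, the side information and the first time, the new edge is as free as the
time. -/
lemma ed_ge (C : Cub m J n) :
    CH (dbl C.F.p (bC C.F)) (ed C) (fun w => (C.S ∅ w.1, bC C.F w.1)) =
      CH C.F.p (C.S ∅) (bC C.F) := by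
  rw [← CH_glue_snd (Z₁ := bC C.F) (Z₂ := bC C.F) C.F.isLaw.nonneg C.F.isLaw.nonneg
    (fun _ => rfl) (C.S ∅) (Y := bC C.F) (C.S ∅) (fun _ _ _ _ h => h)]
  refine CH_congr (q_nonneg C.F) ?_ ?_ ?_ ?_
  · intro w w' _ _ h
    simp only [Prod.mk.injEq, ed] at h
    have h1 := h.2.1
    have h2 := h.1
    show C.S ∅ w.2 = C.S ∅ w'.2
    omega
  · intro w w' _ _ h
    simp only [Prod.mk.injEq] at h
    have h1 := h.2.2
    have h2 := h.1
    show (C.S ∅ w.2 : ℤ) - C.S ∅ w.1 = (C.S ∅ w'.2 : ℤ) - C.S ∅ w'.1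
    rw [h1, h2]
  · intro w w' a b h
    simp only [Prod.mk.injEq] at h
    have ha := (q_pos C.F a).2.2
    have hb := (q_pos C.F b).2.2
    exact Prod.ext (ha.symm.trans (h.2.trans hb)) h.1
  · intro w w' a b h
    simp only [Prod.mk.injEq] at h
    have ha := (q_pos C.F a).2.2
    have hb := (q_pos C.F b).2.2
    exact Prod.ext h.2 (ha.trans (h.1.trans hb.symm))

/-- The deficit of the first vertex of the next cube. -/
lemma tm_aux (C : Cub m J n) (e : ℝ) (h : (C.ver ∅).Tm e) :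
    (J : ℝ) * Real.log 2 - (2 * e + Real.log 2) ≤
      CH (dbl C.F.p (bC C.F)) (fun w => C.S ∅ w.1) (fun w => (ed C w, bC C.F w.1)) := by
  have h0 : (J : ℝ) * Real.log 2 - e ≤ CH C.F.p (C.S ∅) (bC C.F) := h
  have e1 := CH_chain (q_nonneg C.F) (fun w => C.S ∅ w.1) (ed C) (fun w => bC C.F w.1)
  have e2 := CH_chain (q_nonneg C.F) (ed C) (fun w => C.S ∅ w.1) (fun w => bC C.F w.1)
  have e3 : CH (dbl C.F.p (bC C.F)) (fun w => (C.S ∅ w.1, ed C w)) (fun w => bC C.F w.1) =
      CH (dbl C.F.p (bC C.F)) (fun w => (ed C w, C.S ∅ w.1)) (fun w => bC C.F w.1) := by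
    refine CH_congr (q_nonneg C.F) ?_ ?_ (fun _ _ _ _ h => h) (fun _ _ _ _ h => h) <;>
    · intro w w' _ _ h
      simp only [Prod.mk.injEq] at h ⊢
      tauto
  have e4 : CH (dbl C.F.p (bC C.F)) (fun w => C.S ∅ w.1) (fun w => bC C.F w.1) =
      CH C.F.p (C.S ∅) (bC C.F) := (q_fst C.F).CH (C.S ∅) (bC C.F)
  have e5 := ed_ge C
  have e6 := ed_le C (fun w => bC C.F w.1)
  rw [e3, e2, e4, e5] at e1
  linarith

/-- The deficit of each vertex of the next cube. -/
lemma tm_next (C : Cub m J n) (e : ℝ) (h : (C.ver ∅).Tm e) (v : Finset ℕ)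
    (hv : v ⊆ Finset.range (n + 1)) : ((nx C).ver v).Tm (2 * e + Real.log 2) := by
  have h1 := tm_aux C e h
  show (J : ℝ) * Real.log 2 - (2 * e + Real.log 2) ≤
    CH (dbl C.F.p (bC C.F)) ((nx C).S v)
      (fun w => ((C.F.l w.1), ((C.S ∅ w.2 : ℤ) - C.S ∅ w.1, C.F.Z w.1)))
  refine h1.trans (le_of_eq ?_)
  have key : ∀ w w', 0 < dbl C.F.p (bC C.F) w → 0 < dbl C.F.p (bC C.F) w' →
      ed C w = ed C w' → C.F.Z w.1 = C.F.Z w'.1 →
      ((nx C).S v w : ℤ) - C.S ∅ w.1 = ((nx C).S v w' : ℤ) - C.S ∅ w'.1 := by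
    intro w w' a b h2 h3
    have a1 := (nx C).cub v hv w a
    have b1 := (nx C).cub v hv w' b
    have hZ : (nx C).F.Z w = (nx C).F.Z w' := Prod.ext h2 h3
    have hs : ∑ i ∈ v, (nx C).h w i = ∑ i ∈ v, (nx C).h w' i :=
      Finset.sum_congr rfl fun i hi => (nx C).hz _ _ hZ i (Finset.mem_range.mp (hv hi))
    have e0 : ∀ w'' : C.F.Ω × C.F.Ω, (nx C).S ∅ w'' = C.S ∅ w''.1 := by
      intro w''
      show (if n ∈ (∅ : Finset ℕ) then C.S ((∅ : Finset ℕ).erase n) w''.2 else C.S ∅ w''.1) = _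
      rw [if_neg (Finset.notMem_empty n)]
    rw [e0] at a1 b1
    rw [a1, b1, hs]
    ring
  refine CH_congr (q_nonneg C.F) ?_ ?_ ?_ ?_
  · intro w w' a b h2
    simp only [Prod.mk.injEq] at h2
    have h3 := key w w' a b h2.2.1 (Prod.ext_iff.mp h2.2.2).2
    have h4 := h2.1
    have h5 : ((nx C).S v w : ℤ) = ((nx C).S v w' : ℤ) := by
      rw [h4] at h3
      linarith
    exact_mod_cast h5
  · intro w w' a b h2
    simp only [Prod.mk.injEq] at h2
    have h3 := key w w' a b h2.2.2.1 h2.2.2.2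
    have h4 := h2.1
    have h5 : (C.S ∅ w.1 : ℤ) = (C.S ∅ w'.1 : ℤ) := by
      rw [h4] at h3
      linarith
    show C.S ∅ w.1 = C.S ∅ w'.1
    exact_mod_cast h5
  · intro w w' _ _ h2
    simp only [Prod.mk.injEq] at h2
    have h3 := Prod.ext_iff.mp h2.2
    exact Prod.ext h3.1 (Prod.ext h2.1 h3.2)
  · intro w w' _ _ h2
    simp only [Prod.mk.injEq] at h2
    exact Prod.ext h2.2.1 (Prod.ext h2.1 h2.2.2)

/-- Stickiness of the next cube. -/
lemma stk_next (C : Cub m J n) (ε : ℝ) (h : Stk C.F ε) : Stk (nx C).F ε := by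
  intro j hj
  refine le_trans ?_ (h j hj)
  have e := (q_fst C.F).CH (Fl C.F.u j) (fun ω => (C.F.D j ω, C.F.Z ω))
  rw [← e]
  exact CH_mono_cond (q_nonneg C.F) (fun w w' _ _ h2 => by
    have h3 := Prod.ext_iff.mp h2
    exact Prod.ext h3.1 (Prod.ext_iff.mp h3.2).2)

/-- Directions of the next cube. -/
lemma dir_next (C : Cub m J n) (e : ℝ) (h : (C.ver ∅).Tm e) :
    CH C.F.p (C.F.D J) C.F.Z - (e + Real.log 2) ≤ CH (nx C).F.p ((nx C).F.D J) (nx C).F.Z := by
  have h0 : (J : ℝ) * Real.log 2 - e ≤ CH C.F.p (C.S ∅) (bC C.F) := h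
  have hq := q_nonneg C.F
  have e1 := CH_chain hq (fun w => C.F.D J w.1) (ed C) (fun w => C.F.Z w.1)
  have e2 := CH_chain hq (ed C) (fun w => C.F.D J w.1) (fun w => C.F.Z w.1)
  have e3 : CH (dbl C.F.p (bC C.F)) (fun w => (C.F.D J w.1, ed C w)) (fun w => C.F.Z w.1) =
      CH (dbl C.F.p (bC C.F)) (fun w => (ed C w, C.F.D J w.1)) (fun w => C.F.Z w.1) := by
    refine CH_congr hq ?_ ?_ (fun _ _ _ _ h => h) (fun _ _ _ _ h => h) <;>
    · intro w w' _ _ h
      simp only [Prod.mk.injEq] at h ⊢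
      tauto
  have e4 : CH (dbl C.F.p (bC C.F)) (fun w => C.F.D J w.1) (fun w => C.F.Z w.1) =
      CH C.F.p (C.F.D J) C.F.Z := (q_fst C.F).CH (C.F.D J) C.F.Z
  have e5 := ed_ge C
  have e6 := ed_le C (fun w => C.F.Z w.1)
  have e7 : CH (dbl C.F.p (bC C.F)) (ed C) (fun w => (C.S ∅ w.1, bC C.F w.1)) ≤
      CH (dbl C.F.p (bC C.F)) (ed C) (fun w => (C.F.D J w.1, C.F.Z w.1)) :=
    CH_mono_cond hq (fun w w' _ _ h2 => by
      simp only [Prod.mk.injEq, bC, Fam.l] at h2
      have h3 : C.F.d w.1 = C.F.d w'.1 := h2.2.1.2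
      refine Prod.ext ?_ h2.2.2
      show fl J (C.F.d w.1) = fl J (C.F.d w'.1)
      rw [h3])
  have e8 : CH (nx C).F.p ((nx C).F.D J) (nx C).F.Z =
      CH (dbl C.F.p (bC C.F)) (fun w => C.F.D J w.1) (fun w => (ed C w, C.F.Z w.1)) := rfl
  rw [e8]
  rw [e3, e2, e4] at e1
  linarith

/-- Positions of the next cube. -/
lemma pos_next (C : Cub m J n) (r : ℝ)
    (h : ∀ v, v ⊆ Finset.range n → CH C.F.p ((C.ver v).X J) (C.ver v).W ≤ r) (v : Finset ℕ)
    (hv : v ⊆ Finset.range (n + 1)) :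
    CH (nx C).F.p (((nx C).ver v).X J) ((nx C).ver v).W ≤ r := by
  have hq := q_nonneg C.F
  by_cases hn : n ∈ v
  · have hsub : v.erase n ⊆ Finset.range n := by
      intro i hi
      have h1 := Finset.mem_range.mp (hv (Finset.mem_of_mem_erase hi))
      have h2 := Finset.ne_of_mem_erase hi
      exact Finset.mem_range.mpr (by omega)
    refine le_trans ?_ (h _ hsub)
    rw [← (q_snd C.F).CH ((C.ver (v.erase n)).X J) (C.ver (v.erase n)).W]
    have hT : ∀ w : C.F.Ω × C.F.Ω, (nx C).S v w = C.S (v.erase n) w.2 := by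
      intro w
      show (if n ∈ v then C.S (v.erase n) w.2 else C.S v w.1) = _
      rw [if_pos hn]
    have hX : ∀ w : C.F.Ω × C.F.Ω, 0 < dbl C.F.p (bC C.F) w →
        ((nx C).ver v).X J w = (C.ver (v.erase n)).X J w.2 := by
      intro w a
      have hb := (q_pos C.F a).2.2
      simp only [Prod.mk.injEq, bC, Fam.l] at hb
      show fl J (fun i => C.F.u w.1 i + (((nx C).S v w : ℕ) : ℝ) / 2 ^ J * C.F.d w.1 i) =
        fl J (fun i => C.F.u w.2 i + ((C.S (v.erase n) w.2 : ℕ) : ℝ) / 2 ^ J * C.F.d w.2 i)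
      rw [hT w, hb.1.1, hb.1.2]
    refine le_trans (CH_mono_left hq (X' := fun w => (C.ver (v.erase n)).X J w.2) ?_) ?_
    · intro w w' a b h2
      rw [hX w a, hX w' b]
      exact (Prod.ext_iff.mp h2).1
    · refine CH_mono_cond hq ?_
      intro w w' a b h2
      have h3 : ((nx C).S v w, (ed C w, C.F.Z w.1)) =
        ((nx C).S v w', (ed C w', C.F.Z w'.1)) := h2
      simp only [Prod.mk.injEq] at h3
      rw [hT, hT] at h3
      have ha := (q_pos C.F a).2.2
      have hb := (q_pos C.F b).2.2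
      have ha' : C.F.Z w.1 = C.F.Z w.2 := (Prod.ext_iff.mp ha).2
      have hb' : C.F.Z w'.1 = C.F.Z w'.2 := (Prod.ext_iff.mp hb).2
      show (C.S (v.erase n) w.2, C.F.Z w.2) = (C.S (v.erase n) w'.2, C.F.Z w'.2)
      exact Prod.ext h3.1 (ha'.symm.trans (h3.2.2.trans hb'))
  · have hsub : v ⊆ Finset.range n := by
      intro i hi
      have h1 := Finset.mem_range.mp (hv hi)
      have h2 : i ≠ n := fun h => hn (h ▸ hi)
      exact Finset.mem_range.mpr (by omega)
    refine le_trans ?_ (h _ hsub)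
    rw [← (q_fst C.F).CH ((C.ver v).X J) (C.ver v).W]
    have hT : ∀ w : C.F.Ω × C.F.Ω, (nx C).S v w = C.S v w.1 := by
      intro w
      show (if n ∈ v then C.S (v.erase n) w.2 else C.S v w.1) = _
      rw [if_neg hn]
    have hX : ∀ w : C.F.Ω × C.F.Ω, ((nx C).ver v).X J w = (C.ver v).X J w.1 := by
      intro w
      show fl J (fun i => C.F.u w.1 i + (((nx C).S v w : ℕ) : ℝ) / 2 ^ J * C.F.d w.1 i) =
        fl J (fun i => C.F.u w.1 i + ((C.S v w.1 : ℕ) : ℝ) / 2 ^ J * C.F.d w.1 i)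
      rw [hT w]
    refine le_trans (CH_mono_left hq (X' := fun w => (C.ver v).X J w.1) ?_) ?_
    · intro w w' _ _ h2
      rw [hX w, hX w']
      exact (Prod.ext_iff.mp h2).1
    · refine CH_mono_cond hq ?_
      intro w w' _ _ h2
      have h3 : ((nx C).S v w, (ed C w, C.F.Z w.1)) =
        ((nx C).S v w', (ed C w', C.F.Z w'.1)) := h2
      simp only [Prod.mk.injEq] at h3
      rw [hT, hT] at h3
      show (C.S v w.1, C.F.Z w.1) = (C.S v w'.1, C.F.Z w'.1)
      exact Prod.ext h3.1 h3.2.2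

/-- The old edges. -/
lemma lam_old (C : Cub m J n) (i : ℕ) (hi : i < n) : (nx C).lam i = C.lam i := by
  have h := (q_fst C.F).ex (fun ω => Real.log (2 ^ J / max 1 |(C.h ω i : ℝ)|))
  unfold Ex at h
  unfold Cub.lam
  rw [← h]
  refine Finset.sum_congr rfl fun w _ => ?_
  have e : (nx C).h w i = C.h w.1 i := by
    show (if i = n then (C.S ∅ w.2 : ℤ) - C.S ∅ w.1 else C.h w.1 i) = _
    rw [if_neg (by omega)]
  rw [e]
  rfl

/-- The new edge. -/
lemma lam_new (C : Cub m J n) (e : ℝ) (h : (C.ver ∅).Tm e) :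
    (nx C).lam n ≤ e + Real.log (J + 2) + 1 := by
  have h0 : (J : ℝ) * Real.log 2 - e ≤ CH C.F.p (C.S ∅) (bC C.F) := h
  have hq := q_nonneg C.F
  have h1 := H_int_le hq (q_sum C.F) (ed C) J (ed_lt C)
  have h2 := ed_ge C
  have h3 : CH (dbl C.F.p (bC C.F)) (ed C) (fun w => (C.S ∅ w.1, bC C.F w.1)) ≤
      H (dbl C.F.p (bC C.F)) (ed C) := by
    rw [← CH_unit (q_sum C.F) hq (ed C)]
    exact CH_mono_cond hq (fun _ _ _ _ _ => rfl)
  have h4 : (nx C).lam n = Ex (dbl C.F.p (bC C.F))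
      (fun w => (J : ℝ) * Real.log 2 - Real.log (max 1 |(ed C w : ℝ)|)) := by
    unfold Cub.lam Ex
    refine Finset.sum_congr rfl fun w _ => ?_
    have e : (nx C).h w n = ed C w := by
      show (if n = n then (C.S ∅ w.2 : ℤ) - C.S ∅ w.1 else C.h w.1 n) = _
      rw [if_pos rfl]
      rfl
    rw [e, Real.log_div (by positivity) (by positivity), Real.log_pow]
    rfl
  rw [h4, Ex_sub, Ex_const (q_sum C.F)]
  linarith

/-- The cube of dimension zero. -/
def c0 (F : Fam m J) : Cub m J 0 where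
  F := F
  h := fun _ _ => 0
  S := fun _ => F.T
  tim := fun _ => F.tim
  cub := by
    intro w hw ω _
    rw [Finset.range_zero, Finset.subset_empty] at hw
    subst hw
    simp
  hz := fun _ _ _ _ _ => rfl

/-- The deficit after `n` steps. -/
noncomputable def en (e : ℝ) (n : ℕ) : ℝ := 2 ^ n * e + (2 ^ n - 1) * Real.log 2

lemma en_succ (e : ℝ) (n : ℕ) : en e (n + 1) = 2 * en e n + Real.log 2 := by
  unfold en
  rw [pow_succ]
  ring

theorem cubes (F : Fam m J) (e : ℝ) (he : 0 ≤ e) (hT : F.Tm e) : ∀ n : ℕ, ∃ C : Cub m J n,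
    (∀ w, w ⊆ Finset.range n → (C.ver w).Tm (en e n)) ∧
    (∀ ε, Stk F ε → Stk C.F ε) ∧
    CH F.p (F.D J) F.Z - (2 ^ n - 1) * (e + Real.log 2) ≤ CH C.F.p (C.F.D J) C.F.Z ∧
    (∀ w, w ⊆ Finset.range n →
      CH C.F.p ((C.ver w).X J) (C.ver w).W ≤ CH F.p (F.X J) F.W) ∧
    ∀ i < n, C.lam i ≤ en e n + Real.log (J + 2) + 1 := by
  intro n
  induction n with
  | zero =>
    refine ⟨c0 F, fun w _ => ?_, fun ε h => h, ?_, fun w _ => le_of_eq rfl, fun i hi => ?_⟩
    · have h1 : en e 0 = e := by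
        unfold en
        ring
      rw [h1]
      exact hT
    · have h1 : ((2 : ℝ) ^ 0 - 1) * (e + Real.log 2) = 0 := by ring
      rw [h1, sub_zero]
      exact le_of_eq rfl
    · exact absurd hi (Nat.not_lt_zero i)
  | succ n ih =>
    obtain ⟨C, h1, h2, h3, h4, h5⟩ := ih
    have h10 := h1 ∅ (Finset.empty_subset _)
    have hl : 0 ≤ Real.log 2 := Real.log_nonneg (by norm_num)
    have hp : (1 : ℝ) ≤ 2 ^ n := one_le_pow₀ (by norm_num)
    have hen : 0 ≤ en e n := by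
      unfold en
      have a : 0 ≤ (2 : ℝ) ^ n * e := by positivity
      have b : 0 ≤ ((2 : ℝ) ^ n - 1) * Real.log 2 := mul_nonneg (by linarith) hl
      linarith
    refine ⟨nx C, ?_, ?_, ?_, ?_, ?_⟩
    · intro v hv
      rw [en_succ]
      exact tm_next C _ h10 v hv
    · intro ε h
      exact stk_next C ε (h2 ε h)
    · have h6 := dir_next C _ h10
      have h7 : ((2 : ℝ) ^ (n + 1) - 1) * (e + Real.log 2) =
          (2 ^ n - 1) * (e + Real.log 2) + (en e n + Real.log 2) := by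
        unfold en
        rw [pow_succ]
        ring
      rw [h7]
      linarith
    · intro v hv
      exact pos_next C _ h4 v hv
    · intro i hi
      rw [en_succ]
      rcases Nat.lt_succ_iff_lt_or_eq.mp hi with h | h
      · rw [lam_old C i h]
        have := h5 i h
        linarith
      · subst h
        have := lam_new C _ h10
        linarith

end Pool.STE.CU28

namespace Pool.STE

open Finset Real
open Pool.Agent.H49.Ent Pool.Agent.H32.Dense Pool.STK Pool.KA

/-- **CU.** Cubes of times on the lines. -/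
theorem cu : CUStmt := by
  intro m J n F e he hT
  obtain ⟨C, h1, h2, h3, h4, h5⟩ := CU28.cubes F e he hT n
  have hl : 0 ≤ Real.log 2 := Real.log_nonneg (by norm_num)
  have hen : CU28.en e n ≤ 2 ^ n * (e + Real.log 2) := by
    unfold CU28.en
    nlinarith
  refine ⟨C, ?_, ?_, ?_, h4, ?_⟩
  · intro w hw
    have h := h1 w hw
    unfold Fam.Tm at h ⊢
    linarith
  · intro ε h w
    exact h2 ε h
  · have : 0 ≤ e + Real.log 2 := by linarith
    nlinarith
  · intro i hi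
    have h := h5 i hi
    linarith

end Pool.STE
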